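import Pool.Agent.H42NU.Nu3b

/-!
# Infinitely many maximal `(ν₃, 2)`-progressions

For every prime `ℓ ≡ 7 (mod 24)`, `ℓ > 7`, the pair `(144 ℓ², 42 ℓ)` is a `(ν₃, 2)`-progression, and
every `(ν₃, 2)`-progression containing it has a first entry divisible by `ℓ`.
-/

set_option autoImplicit false

namespace Pool.Agent.Results.MP_c222f6_nt.InfinitelyManyNu3

open Finset

/-- `nu k n` is the number of partitions of `n` in which exactly `k` distinct part sizes occur. -/
def nu (k n : ℕ) : ℕ :=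
  (univ.filter (fun p : n.Partition => p.parts.toFinset.card = k)).card

/-- The arithmetic progression `P(A, B) = {A n + B : n ≥ 0}`. -/
def P (A B : ℕ) : Set ℕ := {x | ∃ n : ℕ, x = A * n + B}

/-- `(A, B)` is a `(ν_k, M)`-progression. -/
def IsProgression (k M A B : ℕ) : Prop :=
  1 ≤ A ∧ 1 ≤ B ∧ B ≤ A ∧ ∀ n : ℕ, M ∣ nu k (A * n + B)

/-- `(A, B)` is a maximal `(ν_k, M)`-progression. -/
def IsMaximal (k M A B : ℕ) : Prop :=
  IsProgression k M A B ∧ ¬ ∃ A' B' : ℕ, IsProgression k M A' B' ∧ P A B ⊂ P A' B'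

/-- Containment of progressions. -/
theorem P_subset {A B A' B' : ℕ} (h : P A B ⊆ P A' B') : A' ∣ A ∧ B' ≤ B ∧ A' ∣ B - B' := by
  obtain ⟨u, hu⟩ := h (show B ∈ P A B from ⟨0, by ring⟩)
  obtain ⟨v, hv⟩ := h (show A + B ∈ P A B from ⟨1, by ring⟩)
  refine ⟨?_, by nlinarith, ⟨u, by omega⟩⟩
  have hvu : A + A' * u = A' * v := by omega
  have h2 : A = A' * v - A' * u := by omega
  rw [h2, ← Nat.mul_sub]
  exact dvd_mul_right _ _

theorem ssubset_lt {A B A' B' : ℕ} (hA : B ≤ A) (hB : 1 ≤ B) (hB' : 1 ≤ B') (hA' : B' ≤ A')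
    (h : P A B ⊂ P A' B') : A' < A := by
  obtain ⟨h1, h2, h3⟩ := P_subset h.1
  have h4 : A' ≤ A := Nat.le_of_dvd (by omega) h1
  rcases lt_or_eq_of_le h4 with h5 | h5
  · exact h5
  · exfalso
    subst h5
    obtain ⟨w, hw⟩ := h3
    have hw0 : w = 0 := by
      rcases Nat.eq_zero_or_pos w with h | h
      · exact h
      · exfalso
        have : A' * 1 ≤ A' * w := Nat.mul_le_mul_left _ h
        omega
    subst hw0
    have : B = B' := by omega
    subst this
    exact h.2 (subset_refl _)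

/-- Every progression lies in a maximal one. -/
theorem exists_maximal (k M : ℕ) : ∀ A B : ℕ, IsProgression k M A B →
    ∃ A' B' : ℕ, IsMaximal k M A' B' ∧ P A B ⊆ P A' B' := by
  intro A
  induction A using Nat.strong_induction_on with
  | _ A ih =>
    intro B hAB
    by_cases hmax : ∃ A' B' : ℕ, IsProgression k M A' B' ∧ P A B ⊂ P A' B'
    · obtain ⟨A', B', h1, h2⟩ := hmax
      have hlt := ssubset_lt hAB.2.2.1 hAB.2.1 h1.2.1 h1.2.2.1 h2
      obtain ⟨A'', B'', h3, h4⟩ := ih A' hlt B' h1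
      exact ⟨A'', B'', h3, h2.1.trans h4⟩
    · exact ⟨A, B, ⟨hAB, hmax⟩, subset_refl _⟩

/-- A prime `p ≡ 7 (mod 8)` dividing `N` exactly once: `N` is not of the form `y² + 2 v²`. -/
theorem not_sq_two {p N : ℕ} (hp : p.Prime) (hp8 : p % 8 = 7) (h1 : p ∣ N) (h2 : ¬ p ^ 2 ∣ N)
    (y v : ℕ) : y * y + 2 * (v * v) ≠ N := by
  intro h
  have : Fact p.Prime := ⟨hp⟩
  have hp2 : p ≠ 2 := by omega
  have hyv : (y : ZMod p) ^ 2 = -2 * (v : ZMod p) ^ 2 := by
    have h3 : ((y * y + 2 * (v * v) : ℕ) : ZMod p) = 0 := by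
      rw [h, ZMod.natCast_eq_zero_iff]
      exact h1
    push_cast at h3
    linear_combination h3
  have hv : (v : ZMod p) = 0 := by
    by_contra hv
    have hsq : IsSquare (-2 : ZMod p) := by
      refine ⟨(y : ZMod p) / v, ?_⟩
      field_simp
      linear_combination -hyv
    rcases (ZMod.exists_sq_eq_neg_two_iff hp2).mp hsq with h | h <;> omega
  have hy : (y : ZMod p) = 0 := by
    rw [hv] at hyv
    have : (y : ZMod p) ^ 2 = 0 := by rw [hyv]; ring
    exact pow_eq_zero_iff (two_ne_zero) |>.mp this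
  rw [ZMod.natCast_eq_zero_iff] at hv hy
  apply h2
  rw [← h, ← pow_two, ← pow_two]
  exact dvd_add (pow_dvd_pow_of_dvd hy 2) (Dvd.dvd.mul_left (pow_dvd_pow_of_dvd hv 2) 2)

/-- `(144 p², 42 p)` is a `(ν₃, 2)`-progression. -/
theorem progression {p : ℕ} (hp : p.Prime) (hp24 : p % 24 = 7) (hp7 : 7 < p) :
    IsProgression 3 2 (144 * p ^ 2) (42 * p) := by
  have hp0 := hp.pos
  refine ⟨Nat.one_le_iff_ne_zero.mpr (by positivity), by omega, by nlinarith, ?_⟩
  intro n
  set b := 24 * (p * n) + 7 with hb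
  have e : 144 * p ^ 2 * n + 42 * p = 6 * (p * b) := by rw [hb]; ring
  have hpb : ¬ p ∣ b := by
    intro h
    have h1 : p ∣ 7 := by
      have := (Nat.dvd_add_right (Dvd.dvd.mul_left (dvd_mul_right p n) 24)).mp h
      exact this
    have := Nat.le_of_dvd (by norm_num) h1
    omega
  have hk : (p * b) % 24 = 1 := by
    rw [Nat.mul_mod]
    have h2 : b % 24 = 7 := by omega
    rw [hp24, h2]
  rw [e]
  apply Pool.Agent.H42NU.nu_three_six
  · omega
  · omega
  · intro y v _ _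
    apply not_sq_two hp (by omega) (Dvd.dvd.mul_left (dvd_mul_right p b) 3)
    rw [pow_two, show 3 * (p * b) = p * (3 * b) by ring]
    intro h
    have h3 := Nat.dvd_of_mul_dvd_mul_left hp0 h
    rcases (Nat.Prime.dvd_mul hp).mp h3 with h4 | h4
    · have := Nat.le_of_dvd (by norm_num) h4
      omega
    · exact hpb h4

/-- `ν₃(6)` is odd. -/
theorem nu_six : ¬ 2 ∣ nu 3 6 := by
  have h1 : (Pool.Agent.H42NU.B 6).card = 1 := by decide +kernel
  have h2 := Pool.Agent.H42NU.nu_three_parity 6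
  rw [h1] at h2
  intro h
  have h3 : ((Pool.Agent.R443.Nu2.nu 3 6 : ℕ) : ZMod 2) = 0 := by
    rw [ZMod.natCast_eq_zero_iff]
    exact h
  rw [h3] at h2
  exact absurd h2 (by decide)

/-- The first entries of the maximal progressions are unbounded. -/
theorem unbounded (N : ℕ) : ∃ A B : ℕ, IsMaximal 3 2 A B ∧ N < A := by
  obtain ⟨p, hpN, hp, hpeq⟩ := Nat.forall_exists_prime_gt_and_eq_mod (q := 24) (a := 7)
    (by decide) (max N 7)
  have hp24 : p % 24 = 7 := by
    have h1 : ((p : ℕ) : ZMod 24) = ((7 : ℕ) : ZMod 24) := by rw [hpeq]; rfl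
    have h2 := (ZMod.natCast_eq_natCast_iff p 7 24).mp h1
    exact h2
  have hpN1 : N < p := lt_of_le_of_lt (le_max_left _ _) hpN
  have hp7 : 7 < p := lt_of_le_of_lt (le_max_right _ _) hpN
  obtain ⟨A, B, hmax, hsub⟩ := exists_maximal 3 2 _ _ (progression hp hp24 hp7)
  refine ⟨A, B, hmax, ?_⟩
  obtain ⟨h1, h2, h3⟩ := P_subset hsub
  obtain ⟨hA1, hB1, hBA, hdiv⟩ := hmax.1
  have hpA : p ∣ A := by
    by_contra hcon
    have hcop : Nat.Coprime A (p ^ 2) := by
      apply Nat.Coprime.pow_right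
      rw [Nat.coprime_comm]
      exact (Nat.Prime.coprime_iff_not_dvd hp).mpr hcon
    have h4 : A ∣ 144 := hcop.dvd_of_dvd_mul_right h1
    have h6 : ∃ n, A * n + B = 6 := by
      obtain ⟨m, hm⟩ : ∃ m, p = 24 * m + 7 := ⟨p / 24, by omega⟩
      have h7 : (A : ℤ) ∣ 6 - B := by
        have h8 : (A : ℤ) ∣ ((42 * p - B : ℕ) : ℤ) := by exact_mod_cast h3
        have h9 : (A : ℤ) ∣ ((144 * (7 * m + 2) : ℕ) : ℤ) := by
          exact_mod_cast Dvd.dvd.mul_right h4 _
        have h10 := dvd_sub h8 h9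
        rw [Nat.cast_sub h2] at h10
        have h11 : ((42 * p : ℕ) : ℤ) - B - ((144 * (7 * m + 2) : ℕ) : ℤ) = 6 - B := by
          rw [hm]; push_cast; ring
        rwa [h11] at h10
      rcases le_or_gt B 6 with hB | hB
      · have h8 : A ∣ 6 - B := by
          have : ((6 - B : ℕ) : ℤ) = 6 - B := by omega
          rw [← this] at h7
          exact_mod_cast h7
        obtain ⟨w, hw⟩ := h8
        exact ⟨w, by omega⟩
      · exfalso
        have h8 : (A : ℤ) ∣ B - 6 := by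
          rw [← dvd_neg]; simpa using h7
        have h9 := Int.le_of_dvd (by omega) h8
        omega
    obtain ⟨n, hn⟩ := h6
    have := hdiv n
    rw [hn] at this
    exact nu_six this
  exact lt_of_lt_of_le hpN1 (Nat.le_of_dvd (by omega) hpA)

/-- There are infinitely many maximal `(ν₃, 2)`-progressions. -/
theorem result : {q : ℕ × ℕ | IsMaximal 3 2 q.1 q.2}.Infinite := by
  intro hfin
  obtain ⟨M, hM⟩ := (hfin.image Prod.fst).bddAbove
  obtain ⟨A, B, h1, h2⟩ := unbounded M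
  have : A ≤ M := hM ⟨(A, B), h1, rfl⟩
  omega

end Pool.Agent.Results.MP_c222f6_nt.InfinitelyManyNu3
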